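import Pool.Agent.Run7.h204.NorPos

/-!
# MP_6eafb7_an: positivity of the convolution sums of generalised Bernoulli polynomials

`B_n^{(n)}(i)` has the sign of `(-1)^(n-i)` for `i = 0, …, n` (it is the mean value over
`(i, i+1)` of `B_n^{(n+1)}(u) = (u-1)⋯(u-n)`), so `B_n^{(n)}` has `n` distinct real zeros; the
`α_{n,k}(x)` and `β_{n,k}(x)` are the coefficients in `y²` of `∏ ((x - x_i)² + y²)`.
-/

namespace Pool.Agent.Results.MP_6eafb7_an.AllNonneg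

open Run7.h204.Nor

/-- **Answer to Q1 (yes).** For all `n ≥ 1` and real `x`, `α_{n,k}(x) ≥ 0` for `1 ≤ 2k ≤ n` and
`β_{n,k}(x) ≥ 0` for `0 ≤ 2k ≤ n - 1`. -/
theorem result (n : ℕ) (_hn : 1 ≤ n) (x : ℝ) :
    (∀ k : ℕ, 1 ≤ 2 * k → 2 * k ≤ n → 0 ≤ alpha n k x) ∧
    (∀ k : ℕ, 2 * k ≤ n - 1 → 0 ≤ beta n k x) :=
  ⟨fun k _ hk => alpha_nonneg n k hk x, fun k hk => beta_nonneg n k (by omega) x⟩

end Pool.Agent.Results.MP_6eafb7_an.AllNonneg
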